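import Mathlib

/-!
# The number `P_9 ^ 2 + 1`, `P_9 = 2 · 3 · 5 · 7 · 11 · 13 · 17 · 19 · 23`, is divisible by `29 ^ 2`
-/

set_option autoImplicit false

namespace Pool.Agent.Results.MP_80b119_nt.NotSquarefree

/-- `P n` is the product of the first `n` primes (`Nat.nth Nat.Prime k` is the prime `p_k`, with `p_0 = 2`). -/
noncomputable def P (n : ℕ) : ℕ := ∏ k ∈ Finset.range n, Nat.nth Nat.Prime k

theorem nth_of {p k : ℕ} (hp : p.Prime) (hk : Nat.count Nat.Prime p = k) : Nat.nth Nat.Prime k = p := by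
  rw [← hk]
  exact Nat.nth_count hp

theorem P_nine : P 9 = 223092870 := by
  unfold P
  have h0 : Nat.nth Nat.Prime 0 = 2 := nth_of (by norm_num) (by decide)
  have h1 : Nat.nth Nat.Prime 1 = 3 := nth_of (by norm_num) (by decide)
  have h2 : Nat.nth Nat.Prime 2 = 5 := nth_of (by norm_num) (by decide)
  have h3 : Nat.nth Nat.Prime 3 = 7 := nth_of (by norm_num) (by decide)
  have h4 : Nat.nth Nat.Prime 4 = 11 := nth_of (by norm_num) (by decide)
  have h5 : Nat.nth Nat.Prime 5 = 13 := nth_of (by norm_num) (by decide)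
  have h6 : Nat.nth Nat.Prime 6 = 17 := nth_of (by norm_num) (by decide)
  have h7 : Nat.nth Nat.Prime 7 = 19 := nth_of (by norm_num) (by decide)
  have h8 : Nat.nth Nat.Prime 8 = 23 := nth_of (by norm_num) (by decide)
  simp only [Finset.prod_range_succ, Finset.prod_range_zero, h0, h1, h2, h3, h4, h5, h6, h7, h8]
  norm_num

/-- The prime square `29 ^ 2` divides `a(9) = P_9 ^ 2 + 1`; so `P_n ^ 2 + 1` is not squarefree for all `n`. -/
theorem result : (Nat.Prime 29 ∧ 29 ^ 2 ∣ P 9 ^ 2 + 1) ∧ ¬ ∀ n : ℕ, Squarefree (P n ^ 2 + 1) := by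
  have h : 29 ^ 2 ∣ P 9 ^ 2 + 1 := by
    rw [P_nine]
    norm_num
  refine ⟨⟨by norm_num, h⟩, fun hsq => ?_⟩
  have h1 := hsq 9 29 (by rw [← pow_two]; exact h)
  rw [Nat.isUnit_iff] at h1
  norm_num at h1

end Pool.Agent.Results.MP_80b119_nt.NotSquarefree
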